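import Pool.Agent.H78.STN.Stmts

/-!
Row ASC: the ascending steps.
-/

set_option autoImplicit false

namespace Pool.STN

theorem asc_step (x : ℕ) (h : x % 3 ≠ 0) : |(3 : ℤ) * (F x : ℕ) - 4 * (x : ℕ)| ≤ 1 := by
  unfold F
  rw [if_neg h]
  rcases abs_cases ((3 : ℤ) * ((if x % 3 = 2 then (4 * x + 1) / 3 else (4 * x - 1) / 3 : ℕ) : ℤ) -
    4 * (x : ℕ)) with ⟨e, -⟩ | ⟨e, -⟩ <;> rw [e] <;> split_ifs <;> omega

theorem asc_ind (m a : ℕ) (h : ∀ i < a, F^[i] m % 3 ≠ 0) : ∀ i ≤ a,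
    |(3 : ℤ) ^ i * (F^[i] m : ℕ) - 4 ^ i * (m : ℕ)| ≤ 4 ^ i - 3 ^ i := by
  intro i
  induction i with
  | zero => intro _; simp
  | succ i ih =>
    intro hi
    have h1 := ih (by omega)
    have h2 := asc_step (F^[i] m) (h i (by omega))
    rw [Function.iterate_succ_apply']
    have e : (3 : ℤ) ^ (i + 1) * (F (F^[i] m) : ℕ) - 4 ^ (i + 1) * (m : ℕ) =
        4 * ((3 : ℤ) ^ i * (F^[i] m : ℕ) - 4 ^ i * (m : ℕ)) +
          3 ^ i * ((3 : ℤ) * (F (F^[i] m) : ℕ) - 4 * (F^[i] m : ℕ)) := by ring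
    have h3 : |(3 : ℤ) ^ i * ((3 : ℤ) * (F (F^[i] m) : ℕ) - 4 * (F^[i] m : ℕ))| ≤ 3 ^ i := by
      rw [abs_mul, abs_of_pos (by positivity : (0 : ℤ) < 3 ^ i)]
      calc (3 : ℤ) ^ i * |(3 : ℤ) * (F (F^[i] m) : ℕ) - 4 * (F^[i] m : ℕ)| ≤ 3 ^ i * 1 :=
            mul_le_mul_of_nonneg_left h2 (by positivity)
        _ = 3 ^ i := mul_one _
    rw [e]
    calc |4 * ((3 : ℤ) ^ i * (F^[i] m : ℕ) - 4 ^ i * (m : ℕ)) +
          3 ^ i * ((3 : ℤ) * (F (F^[i] m) : ℕ) - 4 * (F^[i] m : ℕ))|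
        ≤ |4 * ((3 : ℤ) ^ i * (F^[i] m : ℕ) - 4 ^ i * (m : ℕ))| +
          |(3 : ℤ) ^ i * ((3 : ℤ) * (F (F^[i] m) : ℕ) - 4 * (F^[i] m : ℕ))| := abs_add_le _ _
      _ ≤ 4 * (4 ^ i - 3 ^ i) + 3 ^ i := by
          refine add_le_add ?_ h3
          rw [abs_mul, abs_of_pos (by norm_num : (0 : ℤ) < 4)]
          exact mul_le_mul_of_nonneg_left h1 (by norm_num)
      _ = 4 ^ (i + 1) - 3 ^ (i + 1) := by ring

theorem ASC_thm : ASCStmt := by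
  intro m a _ _ h
  have h1 := asc_ind m a h a le_rfl
  have h2 : (0 : ℤ) < 3 ^ a := by positivity
  omega

end Pool.STN
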