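import Pool.Agent.H78.STN.Stmts2

/-!
Row EN3: computation.
-/

set_option autoImplicit false

namespace Pool.STN

/-- a block of `n` even numbers from `s` -/
def en3_blk : ℕ → ℕ → Bool
  | 0, _ => true
  | n + 1, s => (Nat.beq (s % 3) 0 || sim 70 s s 3) && en3_blk n (s + 2)

theorem en3_spec : ∀ n s : ℕ, en3_blk n s = true → ∀ j < n, (s + 2 * j) % 3 ≠ 0 →
    sim 70 (s + 2 * j) (s + 2 * j) 3 = true := by
  intro n
  induction n with
  | zero => intro s _ j hj; omega
  | succ n ih =>
    intro s h j hj h3
    rw [en3_blk, Bool.and_eq_true, Bool.or_eq_true] at h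
    obtain ⟨h1, h2⟩ := h
    rcases Nat.eq_zero_or_pos j with rfl | hj0
    · rcases h1 with h1 | h1
      · exact absurd (Nat.eq_of_beq_eq_true h1) (by simpa using h3)
      · simpa using h1
    · have h4 := ih (s + 2) h2 (j - 1) (by omega)
      rw [show s + 2 + 2 * (j - 1) = s + 2 * j by omega] at h4
      exact h4 h3

theorem en3_use (s n : ℕ) (h : en3_blk n s = true) (m : ℕ) (h1 : s ≤ m) (h2 : m < s + 2 * n)
    (h3 : m % 2 = s % 2) (h4 : m % 3 ≠ 0) : sim 70 m m 3 = true := by
  have e : s + 2 * ((m - s) / 2) = m := by omega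
  have h5 := en3_spec n s h ((m - s) / 2) (by omega)
  rw [e] at h5
  exact h5 h4

theorem en3_b0 : en3_blk 500 30000 = true := by decide +kernel

theorem en3_b1 : en3_blk 500 31000 = true := by decide +kernel

theorem en3_b2 : en3_blk 500 32000 = true := by decide +kernel

theorem en3_b3 : en3_blk 500 33000 = true := by decide +kernel

theorem en3_b4 : en3_blk 500 34000 = true := by decide +kernel

theorem en3_b5 : en3_blk 500 35000 = true := by decide +kernel

theorem en3_b6 : en3_blk 500 36000 = true := by decide +kernel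

theorem en3_b7 : en3_blk 500 37000 = true := by decide +kernel

theorem en3_b8 : en3_blk 500 38000 = true := by decide +kernel

theorem en3_b9 : en3_blk 500 39000 = true := by decide +kernel

theorem en3_b10 : en3_blk 2 40000 = true := by decide +kernel

theorem EN3_thm : ENStmt 3 := by
  intro m0 ha hb hev hm3 _ _ _ _ _
  by_cases h0 : m0 < 31000
  · exact en3_use 30000 500 en3_b0 m0 (by omega) (by omega) hev hm3
  by_cases h1 : m0 < 32000
  · exact en3_use 31000 500 en3_b1 m0 (by omega) (by omega) hev hm3
  by_cases h2 : m0 < 33000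
  · exact en3_use 32000 500 en3_b2 m0 (by omega) (by omega) hev hm3
  by_cases h3 : m0 < 34000
  · exact en3_use 33000 500 en3_b3 m0 (by omega) (by omega) hev hm3
  by_cases h4 : m0 < 35000
  · exact en3_use 34000 500 en3_b4 m0 (by omega) (by omega) hev hm3
  by_cases h5 : m0 < 36000
  · exact en3_use 35000 500 en3_b5 m0 (by omega) (by omega) hev hm3
  by_cases h6 : m0 < 37000
  · exact en3_use 36000 500 en3_b6 m0 (by omega) (by omega) hev hm3
  by_cases h7 : m0 < 38000
  · exact en3_use 37000 500 en3_b7 m0 (by omega) (by omega) hev hm3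
  by_cases h8 : m0 < 39000
  · exact en3_use 38000 500 en3_b8 m0 (by omega) (by omega) hev hm3
  by_cases h9 : m0 < 40000
  · exact en3_use 39000 500 en3_b9 m0 (by omega) (by omega) hev hm3
  exact en3_use 40000 2 en3_b10 m0 (by omega) (by omega) hev hm3

end Pool.STN
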